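import Pool.Agent.Helper74.VD.VD1
import Pool.Agent.Helper68.VD.VD6
import Pool.Agent.Helper14.VD.VD8
import Pool.Agent.Helper35.VD.VD9

/-! VD-10: the gnomonic chart and the regions of the model. -/

namespace Pool.Agent.Helper13.Venn

open Set Metric Topology Bornology

/-- the gnomonic chart: a cone in the half space `0 < a * p 0` -/
theorem chart (a : ℝ) (ha : a = 1 ∨ a = -1) (K : Set (E 5))
    (hK : ∀ p ∈ K, ∀ t : ℝ, 0 < t → t • p ∈ K) (hK0 : ∀ p ∈ K, 0 < a * p 0) :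
    Nonempty ({p : E 5 | ‖p‖ = 1 ∧ p ∈ K} ≃ₜ
      {q : ((ℝ × ℝ) × ℝ) × ℝ | !₂[a, q.1.1.1, q.1.1.2, q.1.2, q.2] ∈ K}) := by
  have haa : a * a = 1 := by rcases ha with rfl | rfl <;> norm_num
  obtain ⟨e⟩ := slice_change K (fun p => ‖p‖) (fun p => a * p 0) continuous_norm.continuousOn
    (by fun_prop) (fun p hp => by
      rw [norm_pos_iff]
      rintro rfl
      have := hK0 0 hp
      simp at this) hK0 hK
    (fun p _ t ht => by rw [norm_smul, Real.norm_eq_abs, abs_of_pos ht])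
    (fun p _ t ht => by simp; ring)
  have e1 : {p : E 5 | ‖p‖ = 1 ∧ p ∈ K} ≃ₜ {p : E 5 | p ∈ K ∧ ‖p‖ = 1} :=
    Homeomorph.setCongr (by ext p; exact and_comm)
  have key : ∀ p : E 5, a * p 0 = 1 → !₂[a, p 1, p 2, p 3, p 4] = p := by
    intro p hp
    have h0 : p 0 = a := by
      calc p 0 = (a * a) * p 0 := by rw [haa, one_mul]
        _ = a * (a * p 0) := by ring
        _ = a := by rw [hp, mul_one]
    ext i
    fin_cases i <;> simp [h0]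
  let e2 : {p : E 5 | p ∈ K ∧ a * p 0 = 1} ≃ₜ
      {q : ((ℝ × ℝ) × ℝ) × ℝ | !₂[a, q.1.1.1, q.1.1.2, q.1.2, q.2] ∈ K} :=
    { toFun := fun p => ⟨(((p.1 1, p.1 2), p.1 3), p.1 4), by
        show !₂[a, p.1 1, p.1 2, p.1 3, p.1 4] ∈ K
        rw [key p.1 p.2.2]
        exact p.2.1⟩
      invFun := fun q => ⟨!₂[a, q.1.1.1.1, q.1.1.1.2, q.1.1.2, q.1.2], q.2, by
        simpa using haa⟩
      left_inv := fun p => Subtype.ext (key p.1 p.2.2)
      right_inv := fun q => by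
        apply Subtype.ext
        simp
      continuous_toFun := by fun_prop
      continuous_invFun := by fun_prop }
  exact ⟨e1.trans (e.trans e2)⟩

namespace VD10

/-! ### fibres over sets homeomorphic to a model -/

theorem above' {X Z : Type*} [TopologicalSpace X] [TopologicalSpace Z] {W : Set X} {u : X → ℝ}
    (hW : Nonempty (W ≃ₜ Z)) (hu : Continuous u) :
    Nonempty ({q : X × ℝ | q.1 ∈ W ∧ u q.1 < q.2} ≃ₜ Z × ℝ) := by
  obtain ⟨e⟩ := hW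
  obtain ⟨f⟩ := fibre_above W u hu.continuousOn
  exact ⟨f.trans (e.prodCongr (Homeomorph.refl ℝ))⟩

theorem below' {X Z : Type*} [TopologicalSpace X] [TopologicalSpace Z] {W : Set X} {u : X → ℝ}
    (hW : Nonempty (W ≃ₜ Z)) (hu : Continuous u) :
    Nonempty ({q : X × ℝ | q.1 ∈ W ∧ q.2 < u q.1} ≃ₜ Z × ℝ) := by
  obtain ⟨e⟩ := hW
  obtain ⟨f⟩ := fibre_below W u hu.continuousOn
  exact ⟨f.trans (e.prodCongr (Homeomorph.refl ℝ))⟩

theorem between' {X Z : Type*} [TopologicalSpace X] [TopologicalSpace Z] {W : Set X} {l u : X → ℝ}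
    (hW : Nonempty (W ≃ₜ Z)) (hl : Continuous l) (hu : Continuous u) (h : ∀ x ∈ W, l x < u x) :
    Nonempty ({q : X × ℝ | q.1 ∈ W ∧ l q.1 < q.2 ∧ q.2 < u q.1} ≃ₜ Z × ℝ) := by
  obtain ⟨e⟩ := hW
  obtain ⟨f⟩ := fibre_between W l u hl.continuousOn hu.continuousOn h
  exact ⟨f.trans (e.prodCongr (Homeomorph.refl ℝ))⟩

theorem congr' {X Z : Type*} [TopologicalSpace X] [TopologicalSpace Z] {A B : Set X}
    (h : Nonempty (A ≃ₜ Z)) (e : ∀ x, x ∈ B ↔ x ∈ A) : Nonempty (B ≃ₜ Z) := by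
  obtain ⟨f⟩ := h
  exact ⟨(Homeomorph.setCongr (Set.ext e)).trans f⟩

theorem phi_nonneg (x y z : ℝ) : 0 ≤ phi x y z := abs_nonneg _

theorem FU_nonneg (x y z : ℝ) : 0 ≤ FU x y z := by
  have h1 := phi_nonneg x y z
  have h2 := le_abs_self x
  have h3 := abs_nonneg (y - x)
  have h4 := abs_nonneg z
  have h5 : (0 : ℝ) ≤ max 0 (2 * x - y) := le_max_left _ _
  exact le_min (by linarith) (by linarith)

theorem FL_nonneg (x y z : ℝ) : 0 ≤ FL x y z := by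
  have h1 := phi_nonneg x y z
  have h2 := le_abs_self x
  have h3 := abs_nonneg (y - 3 * x)
  have h4 := abs_nonneg z
  have h5 : (0 : ℝ) ≤ max 0 (y - 2 * x) := le_max_left _ _
  exact le_min (by linarith) (by linarith)

theorem hgt_pos_iff (x y z v : ℝ) : 0 < hgt x y z v ↔ v < FU x y z ∧ -FL x y z < v := by
  rw [hgt, lt_min_iff]
  constructor <;> rintro ⟨h1, h2⟩ <;> constructor <;> linarith

theorem hgt_neg_iff (x y z v : ℝ) : hgt x y z v < 0 ↔ FU x y z < v ∨ v < -FL x y z := by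
  rw [hgt, min_lt_iff]
  constructor <;> rintro (h | h)
  · left; linarith
  · right; linarith
  · left; linarith
  · right; linarith

section levels

variable {a b c : ℝ}

theorem cont_FU (x : ℝ) : Continuous (fun q : ℝ × ℝ => FU x q.1 q.2) := by
  unfold FU phi
  fun_prop

theorem cont_FL (x : ℝ) : Continuous (fun q : ℝ × ℝ => FL x q.1 q.2) := by
  unfold FL phi
  fun_prop

theorem cont_hgt (x : ℝ) : Continuous (fun q : (ℝ × ℝ) × ℝ => hgt x q.1.1 q.1.2 q.2) := by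
  unfold hgt FU FL phi
  fun_prop

/-- quadrants -/
def S2 (b c : ℝ) : Set (ℝ × ℝ) := {q | 0 < b * q.1 ∧ 0 < c * q.2}

/-- octants -/
def S3 (b c d : ℝ) : Set ((ℝ × ℝ) × ℝ) := {q | q.1 ∈ S2 b c ∧ 0 < d * q.2}

theorem W3_all (hb : b = 1 ∨ b = -1) (hc : c = 1 ∨ c = -1) {d : ℝ} (hd : d = 1 ∨ d = -1) :
    Nonempty (S3 b c d ≃ₜ (ℝ × ℝ) × ℝ) := by
  have h0 : Nonempty (S2 b c ≃ₜ ℝ × ℝ) := planar_all b c hb hc
  rcases hd with rfl | rfl
  · refine congr' (above' h0 (u := fun _ => 0) continuous_const) fun q => ?_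
    have h1 : q ∈ S3 b c 1 ↔ q.1 ∈ S2 b c ∧ 0 < 1 * q.2 := Iff.rfl
    rw [h1, one_mul]
    exact Iff.rfl
  · refine congr' (below' h0 (u := fun _ => 0) continuous_const) fun q => ?_
    have h1 : q ∈ S3 b c (-1) ↔ q.1 ∈ S2 b c ∧ 0 < -1 * q.2 := Iff.rfl
    have : 0 < (-1 : ℝ) * q.2 ↔ q.2 < 0 := by constructor <;> intro h <;> linarith
    rw [h1, this]
    exact Iff.rfl

/-- octants with `hgt > 0` -/
def S3p (a b c d : ℝ) : Set ((ℝ × ℝ) × ℝ) := {q | q ∈ S3 b c d ∧ 0 < hgt a q.1.1 q.1.2 q.2}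

/-- octants with `hgt < 0` -/
def S3n (a b c d : ℝ) : Set ((ℝ × ℝ) × ℝ) := {q | q ∈ S3 b c d ∧ hgt a q.1.1 q.1.2 q.2 < 0}

theorem mem_S3p {a b c d : ℝ} {q : (ℝ × ℝ) × ℝ} :
    q ∈ S3p a b c d ↔ q ∈ S3 b c d ∧ 0 < hgt a q.1.1 q.1.2 q.2 := Iff.rfl

theorem mem_S3n {a b c d : ℝ} {q : (ℝ × ℝ) × ℝ} :
    q ∈ S3n a b c d ↔ q ∈ S3 b c d ∧ hgt a q.1.1 q.1.2 q.2 < 0 := Iff.rfl

/-- quadrants with `FU > 0` -/
def S2U (a b c : ℝ) : Set (ℝ × ℝ) := {q | q ∈ S2 b c ∧ 0 < FU a q.1 q.2}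

/-- quadrants with `FL > 0` -/
def S2L (a b c : ℝ) : Set (ℝ × ℝ) := {q | q ∈ S2 b c ∧ 0 < FL a q.1 q.2}

theorem W3_pos (ha : a = 1 ∨ a = -1) (hb : b = 1 ∨ b = -1) (hc : c = 1 ∨ c = -1) {d : ℝ}
    (hd : d = 1 ∨ d = -1) : Nonempty (S3p a b c d ≃ₜ (ℝ × ℝ) × ℝ) := by
  have hU : Nonempty (S2U a b c ≃ₜ ℝ × ℝ) := planar_FU a b c ha hb hc
  have hL : Nonempty (S2L a b c ≃ₜ ℝ × ℝ) := planar_FL a b c ha hb hc
  rcases hd with rfl | rfl
  · refine congr' (between' hU (l := fun _ => 0)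
      (u := fun q => FU a q.1 q.2) continuous_const (cont_FU a) (fun q hq => hq.2)) fun q => ?_
    have h0 : q ∈ S3p a b c 1 ↔
        (q.1 ∈ S2 b c ∧ 0 < 1 * q.2) ∧ 0 < hgt a q.1.1 q.1.2 q.2 := Iff.rfl
    rw [h0, hgt_pos_iff]
    have h1 := FL_nonneg a q.1.1 q.1.2
    constructor
    · rintro ⟨⟨h2, h3⟩, h4, h5⟩
      have h6 : 0 < q.2 := by linarith
      exact ⟨⟨h2, h6.trans h4⟩, h6, h4⟩
    · rintro ⟨⟨h2, h3⟩, h4, h5⟩
      have h6 : 0 < q.2 := h4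
      exact ⟨⟨h2, by linarith⟩, h5, by linarith⟩
  · refine congr' (between' hL (u := fun _ => 0)
      (l := fun q => -FL a q.1 q.2) (cont_FL a).neg continuous_const
      (fun q hq => neg_lt_zero.2 hq.2)) fun q => ?_
    have h0 : q ∈ S3p a b c (-1) ↔
        (q.1 ∈ S2 b c ∧ 0 < -1 * q.2) ∧ 0 < hgt a q.1.1 q.1.2 q.2 := Iff.rfl
    rw [h0, hgt_pos_iff]
    have h1 := FU_nonneg a q.1.1 q.1.2
    constructor
    · rintro ⟨⟨h2, h3⟩, h4, h5⟩
      have h6 : q.2 < 0 := by linarith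
      have h7 : 0 < FL a q.1.1 q.1.2 := by linarith
      exact ⟨⟨h2, h7⟩, h5, h6⟩
    · rintro ⟨⟨h2, h3⟩, h4, h5⟩
      have h6 : q.2 < 0 := h5
      exact ⟨⟨h2, by linarith⟩, by linarith, h4⟩

theorem W3_neg (hb : b = 1 ∨ b = -1) (hc : c = 1 ∨ c = -1) {d : ℝ}
    (hd : d = 1 ∨ d = -1) : Nonempty (S3n a b c d ≃ₜ (ℝ × ℝ) × ℝ) := by
  have h00 : Nonempty (S2 b c ≃ₜ ℝ × ℝ) := planar_all b c hb hc
  rcases hd with rfl | rfl
  · refine congr' (above' h00 (u := fun q => FU a q.1 q.2)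
      (cont_FU a)) fun q => ?_
    have h0 : q ∈ S3n a b c 1 ↔
        (q.1 ∈ S2 b c ∧ 0 < 1 * q.2) ∧ hgt a q.1.1 q.1.2 q.2 < 0 := Iff.rfl
    rw [h0, hgt_neg_iff]
    have h1 := FL_nonneg a q.1.1 q.1.2
    have h2 := FU_nonneg a q.1.1 q.1.2
    constructor
    · rintro ⟨⟨h2, h3⟩, h4 | h4⟩
      · exact ⟨h2, h4⟩
      · linarith
    · rintro ⟨h3, h4⟩
      have h5 : FU a q.1.1 q.1.2 < q.2 := h4
      exact ⟨⟨h3, by linarith⟩, Or.inl h5⟩
  · refine congr' (below' h00 (u := fun q => -FL a q.1 q.2)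
      (cont_FL a).neg) fun q => ?_
    have h0 : q ∈ S3n a b c (-1) ↔
        (q.1 ∈ S2 b c ∧ 0 < -1 * q.2) ∧ hgt a q.1.1 q.1.2 q.2 < 0 := Iff.rfl
    rw [h0, hgt_neg_iff]
    have h1 := FL_nonneg a q.1.1 q.1.2
    have h2 := FU_nonneg a q.1.1 q.1.2
    constructor
    · rintro ⟨⟨h2, h3⟩, h4 | h4⟩
      · linarith
      · exact ⟨h2, h4⟩
    · rintro ⟨h3, h4⟩
      have h5 : q.2 < -FL a q.1.1 q.1.2 := h4
      exact ⟨⟨h3, by linarith⟩, Or.inr h5⟩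

/-- the sets in the chart -/
def S4 (a b c d e f : ℝ) : Set (((ℝ × ℝ) × ℝ) × ℝ) :=
  {q | q.1 ∈ S3 b c d ∧ 0 < e * q.2 ∧ 0 < f * (q.2 - hgt a q.1.1.1 q.1.1.2 q.1.2)}

theorem W4 (ha : a = 1 ∨ a = -1) (hb : b = 1 ∨ b = -1) (hc : c = 1 ∨ c = -1) {d e f : ℝ}
    (hd : d = 1 ∨ d = -1) (he : e = 1 ∨ e = -1) (hf : f = 1 ∨ f = -1) :
    Nonempty (S4 a b c d e f ≃ₜ ((ℝ × ℝ) × ℝ) × ℝ) := by
  have h0 : ∀ q, q ∈ S4 a b c d e f ↔ q.1 ∈ S3 b c d ∧ 0 < e * q.2 ∧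
    0 < f * (q.2 - hgt a q.1.1.1 q.1.1.2 q.1.2) := fun q => Iff.rfl
  rcases he with rfl | rfl <;> rcases hf with rfl | rfl
  · have hcn : Continuous (fun q : (ℝ × ℝ) × ℝ => max 0 (hgt a q.1.1 q.1.2 q.2)) :=
      Continuous.max continuous_const (cont_hgt a)
    have hA := above' (W3_all hb hc hd) hcn
    refine congr' hA fun q => ?_
    rw [h0]
    refine and_congr Iff.rfl ?_
    have h : max 0 (hgt a q.1.1.1 q.1.1.2 q.1.2) < q.2 ↔
      0 < q.2 ∧ hgt a q.1.1.1 q.1.1.2 q.1.2 < q.2 := max_lt_iff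
    constructor
    · rintro ⟨h1, h2⟩
      exact h.2 ⟨by linarith, by linarith⟩
    · intro h1
      have h2 := h.1 h1
      exact ⟨by linarith [h2.1], by linarith [h2.2]⟩
  · have hA := between' (W3_pos ha hb hc hd) (l := fun _ => (0 : ℝ))
      continuous_const (cont_hgt a) (fun q hq => (mem_S3p.1 hq).2)
    refine congr' hA fun q => ?_
    rw [h0]
    constructor
    · rintro ⟨h1, h2, h3⟩
      have h4 : 0 < q.2 := by linarith
      have h5 : q.2 < hgt a q.1.1.1 q.1.1.2 q.1.2 := by linarith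
      exact ⟨⟨h1, h4.trans h5⟩, h4, h5⟩
    · rintro ⟨⟨h1, h2⟩, h3, h4⟩
      have h5 : 0 < q.2 := h3
      have h6 : q.2 < hgt a q.1.1.1 q.1.1.2 q.1.2 := h4
      exact ⟨h1, by linarith, by linarith⟩
  · have hA := between' (W3_neg (a := a) hb hc hd) (u := fun _ => (0 : ℝ))
      (cont_hgt a) continuous_const (fun q hq => (mem_S3n.1 hq).2)
    refine congr' hA fun q => ?_
    rw [h0]
    constructor
    · rintro ⟨h1, h2, h3⟩
      have h4 : q.2 < 0 := by linarith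
      have h5 : hgt a q.1.1.1 q.1.1.2 q.1.2 < q.2 := by linarith
      exact ⟨⟨h1, h5.trans h4⟩, h5, h4⟩
    · rintro ⟨⟨h1, h2⟩, h3, h4⟩
      have h5 : q.2 < 0 := h4
      have h6 : hgt a q.1.1.1 q.1.1.2 q.1.2 < q.2 := h3
      exact ⟨h1, by linarith, by linarith⟩
  · have hcn : Continuous (fun q : (ℝ × ℝ) × ℝ => min 0 (hgt a q.1.1 q.1.2 q.2)) :=
      Continuous.min continuous_const (cont_hgt a)
    have hA := below' (W3_all hb hc hd) hcn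
    refine congr' hA fun q => ?_
    rw [h0]
    refine and_congr Iff.rfl ?_
    have h : q.2 < min 0 (hgt a q.1.1.1 q.1.1.2 q.1.2) ↔
      q.2 < 0 ∧ q.2 < hgt a q.1.1.1 q.1.1.2 q.1.2 := lt_min_iff
    constructor
    · rintro ⟨h1, h2⟩
      exact h.2 ⟨by linarith, by linarith⟩
    · intro h1
      have h2 := h.1 h1
      exact ⟨by linarith [h2.1], by linarith [h2.2]⟩

end levels

/-- `ℝ⁴` as an iterated product -/
theorem prod_homeo : Nonempty (((ℝ × ℝ) × ℝ) × ℝ ≃ₜ E 4) :=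
  ⟨{ toFun := fun q => !₂[q.1.1.1, q.1.1.2, q.1.2, q.2]
     invFun := fun p => (((p 0, p 1), p 2), p 3)
     left_inv := fun q => by simp
     right_inv := fun p => by ext i; fin_cases i <;> simp
     continuous_toFun := by fun_prop
     continuous_invFun := by fun_prop }⟩

/-- the sign of a pattern -/
def sg (b : Bool) : ℝ := if b then -1 else 1

theorem sg_or (b : Bool) : sg b = 1 ∨ sg b = -1 := by
  cases b
  · left; rfl
  · right; rfl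

theorem sg_iff (b : Bool) (x : ℝ) : (if b then x < 0 else 0 < x) ↔ 0 < sg b * x := by
  cases b
  · simp [sg]
  · simp [sg]

end VD10

open VD10 in
theorem region_homeo (ε : Fin 6 → Bool) :
    Nonempty ({p : E 5 | ‖p‖ = 1 ∧ ∀ i, if ε i then g i p < 0 else 0 < g i p} ≃ₜ E 4) := by
  set K : Set (E 5) := {p | ∀ i, if ε i then g i p < 0 else 0 < g i p} with hKdef
  have hmem : ∀ p, p ∈ K ↔ ∀ i, 0 < sg (ε i) * g i p := fun p =>
    forall_congr' fun i => sg_iff (ε i) (g i p)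
  have hK : ∀ p ∈ K, ∀ t : ℝ, 0 < t → t • p ∈ K := by
    intro p hp t ht
    rw [hmem] at hp ⊢
    intro i
    rw [g_smul i t ht]
    have := mul_pos ht (hp i)
    linarith [mul_left_comm (sg (ε i)) t (g i p)]
  have hK0 : ∀ p ∈ K, 0 < sg (ε 0) * p 0 := fun p hp => (hmem p).1 hp 0
  obtain ⟨e1⟩ := chart (sg (ε 0)) (sg_or _) K hK hK0
  obtain ⟨e2⟩ := congr' (B := {q : ((ℝ × ℝ) × ℝ) × ℝ |
    !₂[sg (ε 0), q.1.1.1, q.1.1.2, q.1.2, q.2] ∈ K})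
    (W4 (sg_or (ε 0)) (sg_or (ε 1)) (sg_or (ε 2)) (sg_or (ε 3)) (sg_or (ε 4)) (sg_or (ε 5)))
    fun q => by
      change !₂[sg (ε 0), q.1.1.1, q.1.1.2, q.1.2, q.2] ∈ K ↔
        q ∈ S4 (sg (ε 0)) (sg (ε 1)) (sg (ε 2)) (sg (ε 3)) (sg (ε 4)) (sg (ε 5))
      rw [hmem, Fin.forall_fin_succ, Fin.forall_fin_succ, Fin.forall_fin_succ,
        Fin.forall_fin_succ, Fin.forall_fin_succ, Fin.forall_fin_one]
      have h0 : 0 < sg (ε 0) * sg (ε 0) := by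
        rcases sg_or (ε 0) with h | h <;> rw [h] <;> norm_num
      constructor
      · rintro ⟨-, h1, h2, h3, h4, h5⟩
        exact ⟨⟨⟨h1, h2⟩, h3⟩, h4, h5⟩
      · rintro ⟨⟨⟨h1, h2⟩, h3⟩, h4, h5⟩
        exact ⟨h0, h1, h2, h3, h4, h5⟩
  obtain ⟨e3⟩ := prod_homeo
  exact ⟨e1.trans (e2.trans e3)⟩

end Pool.Agent.Helper13.Venn
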