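import Pool.Agent.Helper74.VD.VD1
import Pool.Agent.Helper35.VD.VD2

/-! VD-3: intersections of the model surfaces. -/

namespace Pool.Agent.Helper13.Venn

open Set Metric Topology Bornology

namespace VD3

theorem phi_smul {t : ℝ} (ht : 0 < t) (x y z : ℝ) : phi (t * x) (t * y) (t * z) = t * phi x y z := by
  unfold phi
  have h1 : t * y - 2 * (t * x) = t * (y - 2 * x) := by ring
  rw [h1, abs_mul, abs_mul, abs_of_pos ht]
  have h2 : t * |y - 2 * x| + t * |z| - t * x = t * (|y - 2 * x| + |z| - x) := by ring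
  rw [h2, abs_mul, abs_of_pos ht]

theorem FU_smul {t : ℝ} (ht : 0 < t) (x y z : ℝ) : FU (t * x) (t * y) (t * z) = t * FU x y z := by
  unfold FU
  rw [phi_smul ht, mul_min_of_nonneg _ _ ht.le]
  congr 1
  · have h1 : 2 * (t * x) - t * y = t * (2 * x - y) := by ring
    rw [h1, mul_add, mul_max_of_nonneg _ _ ht.le, mul_zero]
  · have h1 : t * y - t * x = t * (y - x) := by ring
    rw [h1, abs_mul, abs_mul, abs_mul, abs_of_pos ht]
    ring

theorem FL_smul {t : ℝ} (ht : 0 < t) (x y z : ℝ) : FL (t * x) (t * y) (t * z) = t * FL x y z := by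
  unfold FL
  rw [phi_smul ht, mul_min_of_nonneg _ _ ht.le]
  congr 1
  · have h1 : t * y - 2 * (t * x) = t * (y - 2 * x) := by ring
    rw [h1, mul_add, mul_max_of_nonneg _ _ ht.le, mul_zero]
  · have h1 : t * y - 3 * (t * x) = t * (y - 3 * x) := by ring
    rw [h1, abs_mul, abs_mul, abs_mul, abs_of_pos ht]
    ring

theorem hgt_smul {t : ℝ} (ht : 0 < t) (x y z v : ℝ) :
    hgt (t * x) (t * y) (t * z) (t * v) = t * hgt x y z v := by
  unfold hgt
  rw [FU_smul ht, FL_smul ht, mul_min_of_nonneg _ _ ht.le]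
  congr 1 <;> ring

theorem cont_FU3 : Continuous (fun p : E 5 => FU (p 0) (p 1) (p 2)) := by
  unfold FU phi
  fun_prop

theorem cont_FL3 : Continuous (fun p : E 5 => FL (p 0) (p 1) (p 2)) := by
  unfold FL phi
  fun_prop

theorem cont_hgt4 : Continuous (fun p : E 5 => hgt (p 0) (p 1) (p 2) (p 3)) := by
  unfold hgt FU FL phi
  fun_prop

/-- the shear straightening the sixth surface -/
noncomputable def Lh : E 5 ≃ₜ E 5 where
  toFun p := !₂[p 0, p 1, p 2, p 3, p 4 - hgt (p 0) (p 1) (p 2) (p 3)]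
  invFun p := !₂[p 0, p 1, p 2, p 3, p 4 + hgt (p 0) (p 1) (p 2) (p 3)]
  left_inv p := by ext i; fin_cases i <;> simp
  right_inv p := by ext i; fin_cases i <;> simp
  continuous_toFun := by
    have := cont_hgt4
    fun_prop
  continuous_invFun := by
    have := cont_hgt4
    fun_prop

/-- the shear straightening the upper contact surface -/
noncomputable def LU : E 5 ≃ₜ E 5 where
  toFun p := !₂[p 0, p 1, p 2, p 3 - FU (p 0) (p 1) (p 2), p 4]
  invFun p := !₂[p 0, p 1, p 2, p 3 + FU (p 0) (p 1) (p 2), p 4]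
  left_inv p := by ext i; fin_cases i <;> simp
  right_inv p := by ext i; fin_cases i <;> simp
  continuous_toFun := by
    have := cont_FU3
    fun_prop
  continuous_invFun := by
    have := cont_FU3
    fun_prop

/-- the shear straightening the lower contact surface -/
noncomputable def LL : E 5 ≃ₜ E 5 where
  toFun p := !₂[p 0, p 1, p 2, p 3 + FL (p 0) (p 1) (p 2), p 4]
  invFun p := !₂[p 0, p 1, p 2, p 3 - FL (p 0) (p 1) (p 2), p 4]
  left_inv p := by ext i; fin_cases i <;> simp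
  right_inv p := by ext i; fin_cases i <;> simp
  continuous_toFun := by
    have := cont_FL3
    fun_prop
  continuous_invFun := by
    have := cont_FL3
    fun_prop

/-- straightening the cone over the closed curve -/
noncomputable def LC : E 5 ≃ₜ E 5 where
  toFun p := !₂[p 0 - |p 1 - 2 * p 0| - |p 2|, p 1 - 2 * p 0, p 2, p 3, p 4]
  invFun p := !₂[p 0 + |p 1| + |p 2|, p 1 + 2 * (p 0 + |p 1| + |p 2|), p 2, p 3, p 4]
  left_inv p := by
    ext i
    fin_cases i <;> (simp; try ring)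
  right_inv p := by
    ext i
    fin_cases i <;> (simp; try ring)
  continuous_toFun := by fun_prop
  continuous_invFun := by fun_prop

theorem Lh_smul (t : ℝ) (p : E 5) (ht : 0 < t) : Lh (t • p) = t • Lh p := by
  ext i
  fin_cases i <;> simp [Lh, hgt_smul ht, mul_sub]

theorem LU_smul (t : ℝ) (p : E 5) (ht : 0 < t) : LU (t • p) = t • LU p := by
  ext i
  fin_cases i <;> simp [LU, FU_smul ht, mul_sub]

theorem LL_smul (t : ℝ) (p : E 5) (ht : 0 < t) : LL (t • p) = t • LL p := by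
  ext i
  fin_cases i <;> simp [LL, FL_smul ht, mul_add]

theorem LC_smul (t : ℝ) (p : E 5) (ht : 0 < t) : LC (t • p) = t • LC p := by
  have h1 : t * p 1 - 2 * (t * p 0) = t * (p 1 - 2 * p 0) := by ring
  ext i
  fin_cases i
  · simp [LC, h1, abs_mul, abs_of_pos ht]
    ring
  · simp [LC, h1]
  · simp [LC]
  · simp [LC]
  · simp [LC]

/-- coordinate subspheres transported by a homogeneous homeomorphism -/
theorem sub (Λ : E 5 ≃ₜ E 5) (hom : ∀ (t : ℝ) (p : E 5), 0 < t → Λ (t • p) = t • Λ p)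
    (I : Finset (Fin 6)) (m : Fin 6 → Fin 5) (hm : Set.InjOn m I) :
    Nonempty ({p : E 5 | ‖p‖ = 1 ∧ ∀ i ∈ I, Λ p (m i) = 0} ≃ₜ sphere (0 : E (5 - I.card)) 1) := by
  obtain ⟨e⟩ := hom_transport Λ hom {q : E 5 | ∀ j ∈ I.image m, q j = 0} (by
    intro q hq t ht j hj
    have := hq j hj
    simp [this])
  obtain ⟨f⟩ := great_sphere (I.image m)
  rw [Finset.card_image_of_injOn hm] at f
  have h : {p : E 5 | ‖p‖ = 1 ∧ ∀ i ∈ I, Λ p (m i) = 0} =
      {p : E 5 | ‖p‖ = 1 ∧ Λ p ∈ {q : E 5 | ∀ j ∈ I.image m, q j = 0}} := by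
    ext p
    refine and_congr Iff.rfl ?_
    exact (Finset.forall_mem_image (p := fun j => Λ p j = 0)).symm
  exact ⟨(Homeomorph.setCongr h).trans (e.trans f)⟩

theorem g0 (p : E 5) : g 0 p = p 0 := rfl
theorem g1 (p : E 5) : g 1 p = p 1 := rfl
theorem g2 (p : E 5) : g 2 p = p 2 := rfl
theorem g3 (p : E 5) : g 3 p = p 3 := rfl
theorem g4 (p : E 5) : g 4 p = p 4 := rfl
theorem g5 (p : E 5) : g 5 p = p 4 - hgt (p 0) (p 1) (p 2) (p 3) := rfl

theorem FU_nn (x y z : ℝ) : 0 ≤ FU x y z := by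
  have h1 : 0 ≤ phi x y z := abs_nonneg _
  have h2 := le_abs_self x
  have h3 := abs_nonneg (y - x)
  have h4 := abs_nonneg z
  have h5 : (0 : ℝ) ≤ max 0 (2 * x - y) := le_max_left _ _
  exact le_min (by linarith) (by linarith)

theorem FL_nn (x y z : ℝ) : 0 ≤ FL x y z := by
  have h1 : 0 ≤ phi x y z := abs_nonneg _
  have h2 := le_abs_self x
  have h3 := abs_nonneg (y - 3 * x)
  have h4 := abs_nonneg z
  have h5 : (0 : ℝ) ≤ max 0 (y - 2 * x) := le_max_left _ _
  exact le_min (by linarith) (by linarith)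

theorem hgt_zero_iff (x y z v : ℝ) : hgt x y z v = 0 ↔ v - FU x y z = 0 ∨ v + FL x y z = 0 := by
  have h1 := FU_nn x y z
  have h2 := FL_nn x y z
  unfold hgt
  constructor
  · intro h
    rcases min_choice (FU x y z - v) (FL x y z + v) with h3 | h3
    · left; rw [h3] at h; linarith
    · right; rw [h3] at h; linarith
  · rintro (h | h)
    · rw [min_eq_left (by linarith)]; linarith
    · rw [min_eq_right (by linarith)]; linarith

theorem phi_zero_iff (x y z : ℝ) : phi x y z = 0 ↔ x - |y - 2 * x| - |z| = 0 := by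
  unfold phi
  rw [abs_eq_zero]
  constructor <;> intro h <;> linarith

theorem hgt_zero_zero_iff (x y z : ℝ) : hgt x y z 0 = 0 ↔ x - |y - 2 * x| - |z| = 0 := by
  rw [hgt_zero_iff, ← phi_zero_iff]
  have hp : 0 ≤ phi x y z := abs_nonneg _
  have hz := abs_nonneg z
  have hx := le_abs_self x
  constructor
  · rintro (h | h)
    · have h1 : FU x y z = 0 := by linarith
      unfold FU at h1
      rcases min_choice (phi x y z + max 0 (2 * x - y)) (|y - x| + |z| + (|x| - x)) with h2 | h2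
      · rw [h2] at h1
        have h5 : (0 : ℝ) ≤ max 0 (2 * x - y) := le_max_left _ _
        linarith
      · rw [h2] at h1
        have h3 := abs_nonneg (y - x)
        have e1 : |y - x| = 0 := by linarith
        have e2 : |z| = 0 := by linarith
        have e3 : |x| = x := by linarith
        rw [abs_eq_zero] at e1
        unfold phi
        rw [e2, show y - 2 * x = -x by linarith, abs_neg, e3]
        simp
    · have h1 : FL x y z = 0 := by linarith
      unfold FL at h1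
      rcases min_choice (phi x y z + max 0 (y - 2 * x)) (|y - 3 * x| + |z| + (|x| - x)) with h2 | h2
      · rw [h2] at h1
        have h5 : (0 : ℝ) ≤ max 0 (y - 2 * x) := le_max_left _ _
        linarith
      · rw [h2] at h1
        have h3 := abs_nonneg (y - 3 * x)
        have e1 : |y - 3 * x| = 0 := by linarith
        have e2 : |z| = 0 := by linarith
        have e3 : |x| = x := by linarith
        rw [abs_eq_zero] at e1
        unfold phi
        rw [e2, show y - 2 * x = x by linarith, e3]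
        simp
  · intro h
    have h1 := FU_nn x y z
    have h2 := FL_nn x y z
    rcases le_total (2 * x) y with h3 | h3
    · left
      have h4 : FU x y z ≤ phi x y z + max 0 (2 * x - y) := min_le_left _ _
      rw [max_eq_left (by linarith)] at h4
      linarith
    · right
      have h4 : FL x y z ≤ phi x y z + max 0 (y - 2 * x) := min_le_left _ _
      rw [max_eq_left (by linarith)] at h4
      linarith

/-- the index maps -/
def mA : Fin 6 → Fin 5 := ![0, 1, 2, 3, 4, 4]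
def mC : Fin 6 → Fin 5 := ![0, 1, 2, 3, 4, 3]
def mD : Fin 6 → Fin 5 := ![0, 1, 2, 3, 4, 0]

theorem mA_inj (I : Finset (Fin 6)) (h : 5 ∉ I ∨ 4 ∉ I) : Set.InjOn mA I := by
  intro i hi j hj hij
  fin_cases i <;> fin_cases j <;> simp_all [mA]

theorem mC_inj (I : Finset (Fin 6)) (h : 3 ∉ I) : Set.InjOn mC I := by
  intro i hi j hj hij
  fin_cases i <;> fin_cases j <;> simp_all [mC]

theorem mD_inj (I : Finset (Fin 6)) (h : 0 ∉ I) : Set.InjOn mD I := by
  intro i hi j hj hij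
  fin_cases i <;> fin_cases j <;> simp_all [mD]

theorem inter_case1 (I : Finset (Fin 6)) (h : 5 ∉ I) :
    Nonempty ({p : E 5 | ‖p‖ = 1 ∧ ∀ i ∈ I, g i p = 0} ≃ₜ sphere (0 : E (5 - I.card)) 1) := by
  obtain ⟨e⟩ := sub (Homeomorph.refl _) (fun _ _ _ => rfl) I mA (mA_inj I (Or.inl h))
  refine ⟨(Homeomorph.setCongr ?_).trans e⟩
  ext p
  refine and_congr Iff.rfl (forall₂_congr fun i hi => ?_)
  fin_cases i
  · exact Iff.rfl
  · exact Iff.rfl
  · exact Iff.rfl
  · exact Iff.rfl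
  · exact Iff.rfl
  · exact absurd hi h

theorem inter_case2 (I : Finset (Fin 6)) (h : 4 ∉ I) :
    Nonempty ({p : E 5 | ‖p‖ = 1 ∧ ∀ i ∈ I, g i p = 0} ≃ₜ sphere (0 : E (5 - I.card)) 1) := by
  obtain ⟨e⟩ := sub Lh Lh_smul I mA (mA_inj I (Or.inr h))
  refine ⟨(Homeomorph.setCongr ?_).trans e⟩
  ext p
  refine and_congr Iff.rfl (forall₂_congr fun i hi => ?_)
  fin_cases i
  · exact Iff.rfl
  · exact Iff.rfl
  · exact Iff.rfl
  · exact Iff.rfl
  · exact absurd hi h
  · exact Iff.rfl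

theorem inter_case3 (I : Finset (Fin 6)) (h3 : 3 ∉ I) (h4 : 4 ∈ I) (h5 : 5 ∈ I) :
    {p : E 5 | ‖p‖ = 1 ∧ ∀ i ∈ I, g i p = 0} =
      {p : E 5 | ‖p‖ = 1 ∧ ∀ i ∈ I, LU p (mC i) = 0} ∪
      {p : E 5 | ‖p‖ = 1 ∧ ∀ i ∈ I, LL p (mC i) = 0} := by
  ext p
  constructor
  · rintro ⟨hp, h⟩
    have e4 : p 4 = 0 := h 4 h4
    have e5 : p 4 - hgt (p 0) (p 1) (p 2) (p 3) = 0 := h 5 h5
    have e6 : hgt (p 0) (p 1) (p 2) (p 3) = 0 := by linarith
    rcases (hgt_zero_iff _ _ _ _).1 e6 with e | e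
    · left
      refine ⟨hp, fun i hi => ?_⟩
      fin_cases i
      · exact h 0 hi
      · exact h 1 hi
      · exact h 2 hi
      · exact absurd hi h3
      · exact e4
      · exact e
    · right
      refine ⟨hp, fun i hi => ?_⟩
      fin_cases i
      · exact h 0 hi
      · exact h 1 hi
      · exact h 2 hi
      · exact absurd hi h3
      · exact e4
      · exact e
  · rintro (⟨hp, h⟩ | ⟨hp, h⟩)
    · refine ⟨hp, fun i hi => ?_⟩
      have e4 : p 4 = 0 := h 4 h4
      have e5 : p 3 - FU (p 0) (p 1) (p 2) = 0 := h 5 h5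
      fin_cases i
      · exact h 0 hi
      · exact h 1 hi
      · exact h 2 hi
      · exact absurd hi h3
      · exact e4
      · show p 4 - hgt (p 0) (p 1) (p 2) (p 3) = 0
        rw [(hgt_zero_iff _ _ _ _).2 (Or.inl e5), e4, sub_zero]
    · refine ⟨hp, fun i hi => ?_⟩
      have e4 : p 4 = 0 := h 4 h4
      have e5 : p 3 + FL (p 0) (p 1) (p 2) = 0 := h 5 h5
      fin_cases i
      · exact h 0 hi
      · exact h 1 hi
      · exact h 2 hi
      · exact absurd hi h3
      · exact e4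
      · show p 4 - hgt (p 0) (p 1) (p 2) (p 3) = 0
        rw [(hgt_zero_iff _ _ _ _).2 (Or.inr e5), e4, sub_zero]

theorem inter_case4 (I : Finset (Fin 6)) (h3 : 3 ∈ I) (h4 : 4 ∈ I) (h5 : 5 ∈ I)
    (h0 : 0 ∉ I) (h1 : 1 ∉ I) :
    {p : E 5 | ‖p‖ = 1 ∧ ∀ i ∈ I, g i p = 0} =
      {p : E 5 | ‖p‖ = 1 ∧ ∀ i ∈ I, LC p (mD i) = 0} := by
  ext p
  refine and_congr Iff.rfl ⟨fun h i hi => ?_, fun h i hi => ?_⟩
  · have e3 : p 3 = 0 := h 3 h3
    have e4 : p 4 = 0 := h 4 h4
    have e5 : p 4 - hgt (p 0) (p 1) (p 2) (p 3) = 0 := h 5 h5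
    have e6 : hgt (p 0) (p 1) (p 2) 0 = 0 := by rw [e3, e4] at e5; linarith
    fin_cases i
    · exact absurd hi h0
    · exact absurd hi h1
    · exact h 2 hi
    · exact e3
    · exact e4
    · exact (hgt_zero_zero_iff _ _ _).1 e6
  · have e3 : p 3 = 0 := h 3 h3
    have e4 : p 4 = 0 := h 4 h4
    have e5 : p 0 - |p 1 - 2 * p 0| - |p 2| = 0 := h 5 h5
    fin_cases i
    · exact absurd hi h0
    · exact absurd hi h1
    · exact h 2 hi
    · exact e3
    · exact e4
    · show p 4 - hgt (p 0) (p 1) (p 2) (p 3) = 0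
      rw [e3, e4, (hgt_zero_zero_iff _ _ _).2 e5, sub_zero]

theorem inter_case5 (I : Finset (Fin 6)) (h3 : 3 ∈ I) (h4 : 4 ∈ I) (h5 : 5 ∈ I)
    (h01 : 0 ∈ I ∨ 1 ∈ I) :
    {p : E 5 | ‖p‖ = 1 ∧ ∀ i ∈ I, g i p = 0} = ∅ := by
  rw [eq_empty_iff_forall_notMem]
  rintro p ⟨hp, h⟩
  have e3 : p 3 = 0 := h 3 h3
  have e4 : p 4 = 0 := h 4 h4
  have e5 : p 4 - hgt (p 0) (p 1) (p 2) (p 3) = 0 := h 5 h5
  have e6 : hgt (p 0) (p 1) (p 2) 0 = 0 := by rw [e3, e4] at e5; linarith
  have e7 := (hgt_zero_zero_iff _ _ _).1 e6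
  have hz := abs_nonneg (p 2)
  have hall : p 0 = 0 ∧ p 1 = 0 ∧ p 2 = 0 := by
    rcases h01 with h0 | h1
    · have e0 : p 0 = 0 := h 0 h0
      rw [e0] at e7
      have h2 := abs_nonneg (p 1 - 2 * 0)
      have h6 : |p 1 - 2 * 0| = 0 := by linarith
      have h7 : |p 2| = 0 := by linarith
      rw [abs_eq_zero] at h6 h7
      exact ⟨e0, by linarith, h7⟩
    · have e1 : p 1 = 0 := h 1 h1
      rw [e1] at e7
      have h2 := neg_le_abs (0 - 2 * p 0)
      have h2' := abs_nonneg (0 - 2 * p 0)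
      have h6 : p 0 = 0 := by linarith
      have h7 : |p 2| = 0 := by linarith
      rw [abs_eq_zero] at h7
      exact ⟨h6, e1, h7⟩
  have hp0 : p = 0 := by
    ext i
    fin_cases i
    · exact hall.1
    · exact hall.2.1
    · exact hall.2.2
    · exact e3
    · exact e4
  rw [hp0, norm_zero] at hp
  exact zero_ne_one hp

end VD3

open VD3 in
theorem model_inter (I : Finset (Fin 6)) (_hI : 1 ≤ I.card) :
    ∃ T : Set (Set (E 5)), T.Finite ∧
      (∀ t ∈ T, Nonempty (t ≃ₜ sphere (0 : E (5 - I.card)) 1)) ∧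
      {p : E 5 | ‖p‖ = 1 ∧ ∀ i ∈ I, g i p = 0} = ⋃₀ T := by
  by_cases h5 : 5 ∈ I
  swap
  · exact ⟨{_}, finite_singleton _, fun t ht => by rw [mem_singleton_iff.1 ht]; exact inter_case1 I h5,
      (sUnion_singleton _).symm⟩
  by_cases h4 : 4 ∈ I
  swap
  · exact ⟨{_}, finite_singleton _, fun t ht => by rw [mem_singleton_iff.1 ht]; exact inter_case2 I h4,
      (sUnion_singleton _).symm⟩
  by_cases h3 : 3 ∈ I
  swap
  · refine ⟨{{p : E 5 | ‖p‖ = 1 ∧ ∀ i ∈ I, LU p (mC i) = 0},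
      {p : E 5 | ‖p‖ = 1 ∧ ∀ i ∈ I, LL p (mC i) = 0}}, by simp, ?_, ?_⟩
    · intro t ht
      rcases ht with rfl | ht
      · exact sub LU LU_smul I mC (mC_inj I h3)
      · rw [mem_singleton_iff.1 ht]
        exact sub LL LL_smul I mC (mC_inj I h3)
    · rw [inter_case3 I h3 h4 h5, sUnion_pair]
  by_cases h01 : 0 ∈ I ∨ 1 ∈ I
  · exact ⟨∅, finite_empty, fun t ht => absurd ht (notMem_empty t), by
      rw [inter_case5 I h3 h4 h5 h01, sUnion_empty]⟩
  · rw [not_or] at h01
    refine ⟨{{p : E 5 | ‖p‖ = 1 ∧ ∀ i ∈ I, LC p (mD i) = 0}}, finite_singleton _, ?_, ?_⟩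
    · intro t ht
      rw [mem_singleton_iff.1 ht]
      exact sub LC LC_smul I mD (mD_inj I h01.1)
    · rw [inter_case4 I h3 h4 h5 h01.1 h01.2, sUnion_singleton]

open VD3 in
theorem model_surface (i : Fin 6) :
    Nonempty ({p : E 5 | ‖p‖ = 1 ∧ g i p = 0} ≃ₜ sphere (0 : E 4) 1) := by
  have h : {p : E 5 | ‖p‖ = 1 ∧ g i p = 0} =
      {p : E 5 | ‖p‖ = 1 ∧ ∀ j ∈ ({i} : Finset (Fin 6)), g j p = 0} := by
    ext p
    simp
  rw [h]
  by_cases h5 : 5 ∈ ({i} : Finset (Fin 6))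
  · have h4 : 4 ∉ ({i} : Finset (Fin 6)) := by
      rw [Finset.mem_singleton] at h5 ⊢
      rw [← h5]
      decide
    exact inter_case2 _ h4
  · exact inter_case1 _ h5

end Pool.Agent.Helper13.Venn
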